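import Pool.Agent.H18.EDB.Targets2
import Pool.Agent.H18.BKH.Basic
import Pool.Agent.H18.HIT.PN

/-!
# TWR: growth of the heights along the tree of the preimages
-/

set_option autoImplicit false

open MvPolynomial
open Pool.Agent.H12.ZD (pmap)
open Pool.Agent.H18.HIT Pool.Agent.H18.HX Pool.Agent.H18.VZ
open Pool.Agent.H8.ZA (HFam Const NA)
open Pool.Agent.H8.TD (lc dg Cop)
open Pool.Agent.H8.TX (hn)
open Pool.Agent.H2.ED
open Pool.Agent.H18.TE (lg Gc T_FIX)
open Pool.Agent.H18.TXB (avn)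
open Pool.Agent.H18.BKH (Gc.prod_mem)
open Pool.Agent.H18.EDB

namespace Pool.Agent.H16.EDB

/-! ## Affine coordinates and automorphisms -/

section pts

variable {ν : ℕ} {k : Type} [Field k]

theorem af_one {y : Fin (ν + 2) → k} (hy : y 1 ≠ 0) : af y 1 = 1 := div_self hy

theorem af_smul {c : k} (hc : c ≠ 0) (y : Fin (ν + 2) → k) : af (fun i => c * y i) = af y := by
  funext i
  exact mul_div_mul_left _ _ hc

theorem af_of_one {y : Fin (ν + 2) → k} (hy : y 1 = 1) : af y = y := by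
  funext i
  rw [af, hy, div_one]

theorem eval_af {q : Po (ν + 2) k} {s : ℕ} (hq : q.IsHomogeneous s) {y : Fin (ν + 2) → k}
    (hy : y 1 ≠ 0) : eval y q = y 1 ^ s * eval (af y) q := by
  rw [← Pool.Agent.H8.TD.eval_smul hq]
  congr 1
  congr 1
  funext i
  rw [af]
  field_simp

/-- a homogeneous map and affine coordinates -/
theorem af_pmap {T : Tup (ν + 2) k} {D : ℕ} (hT : ∀ i, (T i).IsHomogeneous D)
    {y : Fin (ν + 2) → k} (hy : y 1 ≠ 0) : af (pmap T (af y)) = af (pmap T y) := by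
  have h1 : pmap T y = fun i => y 1 ^ D * pmap T (af y) i := by
    funext i
    exact eval_af (hT i) hy
  rw [h1]
  exact (af_smul (pow_ne_zero _ hy) _).symm

end pts

section av

variable {K : IntermediateField ℚ Qb}

theorem map_eval {N : ℕ} (σ : Qb ≃ₐ[K] Qb) (q : Po N Qb)
    (hq : ∀ x ∈ q.coeffs, x ∈ K) (y : Fin N → Qb) :
    σ (eval y q) = eval (fun i => σ (y i)) q := by
  rw [eval_eq', eval_eq', map_sum]
  apply Finset.sum_congr rfl
  intro m hm
  rw [map_mul, map_prod]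
  have h1 : σ (coeff m q) = coeff m q := by
    have h2 : coeff m q ∈ K := hq _ (by
      rw [mem_coeffs_iff]
      exact ⟨m, hm, rfl⟩)
    exact σ.commutes ⟨_, h2⟩
  rw [h1]
  congr 1
  exact Finset.prod_congr rfl fun i _ => map_pow σ _ _

theorem map_pmap {N : ℕ} (σ : Qb ≃ₐ[K] Qb) (T : Tup N Qb)
    (hT : ∀ i, ∀ x ∈ (T i).coeffs, x ∈ K) (y : Fin N → Qb) :
    (fun i => σ (pmap T y i)) = pmap T fun i => σ (y i) :=
  funext fun i => map_eval σ (T i) (hT i) y

theorem eval_memL {L : IntermediateField K Qb} {N : ℕ}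
    (q : Po N Qb) (hq : ∀ x ∈ q.coeffs, x ∈ K) (y : Fin N → Qb) (hy : ∀ i, y i ∈ L) :
    eval y q ∈ L := by
  rw [eval_eq']
  apply sum_mem
  intro m hm
  apply mul_mem
  · have h2 : coeff m q ∈ K := hq _ (by
      rw [mem_coeffs_iff]
      exact ⟨m, hm, rfl⟩)
    exact L.algebraMap_mem ⟨_, h2⟩
  · exact prod_mem fun j _ => pow_mem (hy j) _

theorem map_orbit {N : ℕ} (σ : Qb ≃ₐ[K] Qb) (F : Tup N Qb)
    (hF : ∀ i, ∀ c ∈ (F i).coeffs, c ∈ K) (x : Fin N → Qb) (n : ℕ) :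
    (fun i => σ ((pmap F)^[n] x i)) = (pmap F)^[n] fun i => σ (x i) := by
  induction n with
  | zero => rfl
  | succ n ih =>
    rw [Function.iterate_succ_apply', Function.iterate_succ_apply', ← ih, map_pmap σ F hF]

theorem hn_nonneg (F : HFam K) {n : ℕ} (x : Fin n → Qb) : 0 ≤ hn F x := by
  unfold hn
  apply finsum_nonneg
  intro i
  apply Real.log_nonneg
  unfold Pool.Agent.H8.TX.szn
  rw [Finset.le_fold_max]
  exact Or.inl le_rfl

theorem avn_nonneg (F : HFam K) (Γ : Finset (Qb ≃ₐ[K] Qb)) {n : ℕ} (y : Fin n → Qb) :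
    0 ≤ avn F Γ y := Finset.sum_nonneg fun _ _ => hn_nonneg F _

theorem sum_fin (Γ : Finset (Qb ≃ₐ[K] Qb)) (f : (Qb ≃ₐ[K] Qb) → ℝ) :
    ∑ j : Fin Γ.card, f ((Γ.equivFin.symm j : Γ) : Qb ≃ₐ[K] Qb) = ∑ σ ∈ Γ, f σ := by
  rw [← Finset.sum_coe_sort Γ f]
  exact Equiv.sum_comp Γ.equivFin.symm (fun σ : Γ => f σ)

theorem prod_fin (Γ : Finset (Qb ≃ₐ[K] Qb)) (f : (Qb ≃ₐ[K] Qb) → Qb) :
    ∏ j : Fin Γ.card, f ((Γ.equivFin.symm j : Γ) : Qb ≃ₐ[K] Qb) = ∏ σ ∈ Γ, f σ := by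
  rw [← Finset.prod_coe_sort Γ f]
  exact Equiv.prod_comp Γ.equivFin.symm (fun σ : Γ => f σ)

variable {ν : ℕ}

theorem map_af (σ : Qb ≃ₐ[K] Qb) (y : Fin (ν + 2) → Qb) :
    (fun i => σ (af y i)) = af fun i => σ (y i) := by
  funext i
  exact map_div₀ σ _ _

/-- the averaged recursion -/
theorem recAv (hFIX : T_FIX) {P : Po (ν + 2) Qb} {F : Tup (ν + 2) Qb} {r d m : ℕ} {κ β c₀ : ℝ}
    {T : Finset (Po (ν + 2) Qb)} (hP : Hyp P r) (hF : ∀ i, (F i).IsHomogeneous d) (F' : HFam K)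
    (hrec : ∀ (μ : ℕ) (z : Fin μ → Fin (ν + 2) → Qb), (∀ j, eval (z j) P = 0) →
          (∀ j, z j 1 = 1) →
          (∀ j, ∀ p ∈ T, eval (z j) p ≠ 0) → (∀ p ∈ T, ∏ j, eval (z j) p ∈ K) →
          κ * ∑ j, hn F' (af (pmap (it F m) (z j))) ≤ ∑ j, hn F' (z j) +
            β * ∑ j, hn F' (af (pmap (it F (m + m)) (z j))) + μ * c₀)
    {Γ : Finset (Qb ≃ₐ[K] Qb)} {L : IntermediateField K Qb} (hΓ : Gc K Γ L)
    (hKF : ∀ i, ∀ c ∈ (F i).coeffs, c ∈ K) (hKT : ∀ p ∈ T, ∀ c ∈ p.coeffs, c ∈ K)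
    (hKP : ∀ c ∈ P.coeffs, c ∈ K) {y : Fin (ν + 2) → Qb} (hy : ∀ i, y i ∈ L)
    (hyP : eval y P = 0) (hy1 : y 1 = 1) (hyT : ∀ p ∈ T, eval y p ≠ 0) :
    κ * avn F' Γ (af ((pmap F)^[m] y)) ≤ avn F' Γ y +
      β * avn F' Γ (af ((pmap F)^[m + m] y)) + Γ.card * c₀ := by
  obtain ⟨g, hg⟩ : ∃ g : Fin Γ.card → (Qb ≃ₐ[K] Qb), g = fun j =>
    ((Γ.equivFin.symm j : Γ) : Qb ≃ₐ[K] Qb) := ⟨_, rfl⟩
  have hz : ∀ n (σ : Qb ≃ₐ[K] Qb), af (pmap (it F n) fun i => σ (y i)) =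
      fun i => σ (af ((pmap F)^[n] y) i) := by
    intro n σ
    rw [map_af, map_orbit σ F hKF y n, pmap_it]
  have h1 := hrec Γ.card (fun j i => g j (y i)) (fun j => by
      rw [← map_eval (g j) P hKP, hyP, map_zero]) (fun j => by
      rw [hy1, map_one]) (fun j p hp => by
      rw [← map_eval (g j) p (hKT p hp)]
      exact (map_ne_zero (g j)).2 (hyT p hp)) (fun p hp => by
      have h2 : ∀ j, eval (fun i => g j (y i)) p = g j (eval y p) := fun j =>
        (map_eval (g j) p (hKT p hp) _).symm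
      rw [Finset.prod_congr rfl fun j _ => h2 j, hg,
        prod_fin Γ fun σ => σ (eval y p)]
      exact Gc.prod_mem hΓ hFIX (eval_memL p (hKT p hp) _ hy))
  rw [hg] at h1
  simp only [hz] at h1
  rw [sum_fin Γ fun σ => hn F' fun i => σ (af ((pmap F)^[m] y) i),
    sum_fin Γ fun σ => hn F' fun i => σ (af ((pmap F)^[m + m] y) i),
    sum_fin Γ fun σ => hn F' fun i => σ (y i)] at h1
  exact h1

end av

/-! ## The growth -/

/-- the recursion for real numbers -/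
theorem recur (l : ℕ) (a : ℕ → ℝ) (κ β q c D : ℝ) (hq : 1 ≤ q) (hκ : 2 * q ≤ κ) (hβ : 0 ≤ β)
    (hβκ : 8 * β ≤ κ * q) (ha : ∀ i, 0 ≤ a i) (h0 : q * a 0 ≤ a 1) (hc : c ≤ D)
    (hD : 2 * D ≤ a 1) (hrec : ∀ i < l, κ * a (i + 1) ≤ a (i + 2) + β * a i + c) :
    ∀ i ≤ l, q ^ i * a 1 ≤ a (i + 1) := by
  have key : ∀ i ≤ l, q * a i ≤ a (i + 1) ∧ a 1 ≤ a (i + 1) ∧ q ^ i * a 1 ≤ a (i + 1) := by
    intro i
    induction i with
    | zero =>
      intro _
      refine ⟨h0, le_rfl, ?_⟩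
      rw [pow_zero, one_mul]
    | succ i ih =>
      intro hi
      obtain ⟨h1, h2, h3⟩ := ih (by omega)
      have h4 := hrec i (by omega)
      have hb : 0 ≤ a (i + 1) := ha _
      have h5 : 8 * (β * a i) ≤ κ * a (i + 1) := by
        have h6 : 8 * β * a i ≤ κ * q * a i := mul_le_mul_of_nonneg_right hβκ (ha i)
        have h7 : κ * (q * a i) ≤ κ * a (i + 1) :=
          mul_le_mul_of_nonneg_left h1 (by linarith)
        linarith
      have h8 : 2 * q * a (i + 1) ≤ κ * a (i + 1) := mul_le_mul_of_nonneg_right hκ hb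
      have h9 : 1 * a (i + 1) ≤ q * a (i + 1) := mul_le_mul_of_nonneg_right hq hb
      have h10 : q * a (i + 1) ≤ a (i + 1 + 1) := by
        show q * a (i + 1) ≤ a (i + 2)
        linarith
      refine ⟨h10, by linarith, ?_⟩
      rw [pow_succ]
      calc q ^ i * q * a 1 = q * (q ^ i * a 1) := by ring
        _ ≤ q * a (i + 1) := mul_le_mul_of_nonneg_left h3 (by linarith)
        _ ≤ _ := h10
  intro i hi
  exact (key i hi).2.2

theorem pf_TWR (hFIX : Pool.Agent.H18.TE.T_FIX) : T_TWR := by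
  classical
  intro ν r d k e l P v F V κ β q U hP hF hPV he hq hκ hβ hβκ hR hvU K' F' hKF hKU hKP
  obtain ⟨c₀, hrec⟩ := hR K' F'
  refine ⟨2 * |c₀|, by positivity, ?_⟩
  intro y T hT hy hy1 hGy1 Γ L hΓ hTL hyL hqy hCy
  have hG : ∀ i, (it F k i).IsHomogeneous (d ^ k) := it_hom hF k
  have he0 : (0 : ℝ) < e := by exact_mod_cast he
  have hΓ0 : (0 : ℝ) ≤ Γ.card := Nat.cast_nonneg _
  -- the averaged recursion at the points of the tree
  have hav : ∀ i < l, ∀ x ∈ T (i + 1), κ * avn F' Γ (af (pmap (it F k) x)) ≤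
      avn F' Γ x + β * avn F' Γ (af (pmap (it F k) (af (pmap (it F k) x)))) + Γ.card * c₀ := by
    intro i hi x hx
    obtain ⟨hxV, hx1⟩ := hT.mem (i + 1) x hx
    obtain ⟨hxv, hGx1, _⟩ := hT.step i hi x hx
    have h1 := recAv hFIX hP hF F' hrec hΓ hKF hKU hKP (y := x) (hTL (i + 1) x hx)
      (hxV P hPV) hx1 (hvU x hx1 hxv)
    have h2 : (pmap F)^[k + k] x = pmap (it F k) (pmap (it F k) x) := by
      rw [pmap_it, pmap_it, ← Function.iterate_add_apply]
    rw [h2, ← pmap_it, ← af_pmap hG hGx1] at h1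
    exact h1
  -- sums over the fibres
  have hsum : ∀ i < l, ∀ g : (Fin (ν + 2) → Qb) → ℝ,
      ∑ x ∈ T (i + 1), g (af (pmap (it F k) x)) = e * ∑ z ∈ T i, g z := by
    intro i hi g
    rw [← Finset.sum_fiberwise_of_maps_to (fun x hx => (hT.step i hi x hx).2.2)
      (fun x => g (af (pmap (it F k) x))), Finset.mul_sum]
    apply Finset.sum_congr rfl
    intro z hz
    have h1 : ∀ x ∈ (T (i + 1)).filter (fun x => af (pmap (it F k) x) = z),
        g (af (pmap (it F k) x)) = g z := by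
      intro x hx
      rw [(Finset.mem_filter.mp hx).2]
    rw [Finset.sum_congr rfl h1, Finset.sum_const, nsmul_eq_mul]
    congr 1
    have h2 := hT.cnt i hi z hz
    exact_mod_cast h2
  have hcard : ∀ i ≤ l, ((T i).card : ℝ) = (e : ℝ) ^ i := by
    intro i
    induction i with
    | zero =>
      intro _
      rw [hT.zero, Finset.card_singleton]
      simp
    | succ i ih =>
      intro hi
      have h1 := hsum i (by omega) (fun _ => (1 : ℝ))
      rw [Finset.sum_const, Finset.sum_const, nsmul_eq_mul, nsmul_eq_mul, mul_one, mul_one,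
        ih (by omega)] at h1
      rw [h1, pow_succ]
      ring
  -- the normalized sums
  obtain ⟨a, ha0, ha1⟩ : ∃ a : ℕ → ℝ, a 0 = avn F' Γ (af (pmap (it F k) y)) ∧
      ∀ i, a (i + 1) = (∑ x ∈ T i, avn F' Γ x) / (e : ℝ) ^ i :=
    ⟨fun n => Nat.casesOn n (avn F' Γ (af (pmap (it F k) y)))
      (fun i => (∑ x ∈ T i, avn F' Γ x) / (e : ℝ) ^ i), rfl, fun _ => rfl⟩
  have hA0 : a 1 = avn F' Γ (af y) := by
    rw [ha1 0, hT.zero, Finset.sum_singleton, pow_zero, div_one]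
  have hann : ∀ i, 0 ≤ a i := by
    intro i
    cases i with
    | zero =>
      rw [ha0]
      exact avn_nonneg F' Γ _
    | succ i =>
      rw [ha1]
      apply div_nonneg (Finset.sum_nonneg fun x _ => avn_nonneg F' Γ x)
      positivity
  have hr : ∀ i < l, κ * a (i + 1) ≤ a (i + 2) + β * a i + Γ.card * c₀ := by
    intro i hi
    have h1 := Finset.sum_le_sum (hav i hi)
    rw [← Finset.mul_sum, Finset.sum_add_distrib, Finset.sum_add_distrib, Finset.sum_const,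
      nsmul_eq_mul, hcard (i + 1) (by omega), ← Finset.mul_sum,
      hsum i hi (fun z => avn F' Γ z),
      hsum i hi (fun z => avn F' Γ (af (pmap (it F k) z)))] at h1
    have hpe : (0 : ℝ) < (e : ℝ) ^ (i + 1) := pow_pos he0 _
    have hpi : (0 : ℝ) < (e : ℝ) ^ i := pow_pos he0 _
    have h2 : ∑ z ∈ T i, avn F' Γ (af (pmap (it F k) z)) = (e : ℝ) ^ i * a i := by
      cases i with
      | zero =>
        rw [hT.zero, Finset.sum_singleton, af_pmap hG hy1, pow_zero, one_mul, ha0]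
      | succ i =>
        rw [hsum i (by omega) (fun z => avn F' Γ z), ha1 i, pow_succ]
        field_simp
    have h3 : ∑ z ∈ T i, avn F' Γ z = (e : ℝ) ^ i * a (i + 1) := by
      rw [ha1 i]
      field_simp
    have h4 : ∑ z ∈ T (i + 1), avn F' Γ z = (e : ℝ) ^ (i + 1) * a (i + 2) := by
      rw [ha1 (i + 1)]
      field_simp
    rw [h2, h3, h4] at h1
    have h5 : (e : ℝ) ^ (i + 1) * (κ * a (i + 1)) ≤
        (e : ℝ) ^ (i + 1) * (a (i + 2) + β * a i + Γ.card * c₀) := by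
      calc (e : ℝ) ^ (i + 1) * (κ * a (i + 1)) = κ * (e * ((e : ℝ) ^ i * a (i + 1))) := by
            rw [pow_succ]
            ring
        _ ≤ _ := h1
        _ = _ := by
            rw [pow_succ]
            ring
    exact le_of_mul_le_mul_left h5 hpe
  have hfin := recur l a κ β q (Γ.card * c₀) (Γ.card * |c₀|) hq hκ hβ hβκ hann
    (by
      rw [ha0, hA0]
      exact hqy)
    (mul_le_mul_of_nonneg_left (le_abs_self c₀) hΓ0)
    (by
      rw [hA0]
      calc 2 * ((Γ.card : ℝ) * |c₀|) = 2 * |c₀| * Γ.card := by ring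
        _ ≤ _ := hCy) hr
  intro i hi
  have h1 := hfin i hi
  have hpi : (0 : ℝ) < (e : ℝ) ^ i := pow_pos he0 _
  rw [hA0, ha1 i, le_div_iff₀ hpi] at h1
  calc (e * q) ^ i * avn F' Γ (af y) = q ^ i * avn F' Γ (af y) * (e : ℝ) ^ i := by
        rw [mul_pow]
        ring
    _ ≤ _ := h1

end Pool.Agent.H16.EDB
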